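import Mathlib
import Pool.Agent.H579R3.Epi3

set_option autoImplicit false

open Set MeasureTheory

namespace Pool.Agent.Results.MP_44948e_lc.WeakEpimorphisms

/-- The structures with domain `ℕ` for the relational language with symbols `ι` and arities
`arity`: the truth values of all atomic formulas. -/
abbrev Str (ι : Type) (arity : ι → ℕ) : Type := (Σ i, Fin (arity i) → ℕ) → Bool

/-- There is a weak epimorphism of `v` onto `u`: a surjection of the domains which preserves all
the relations of `v`. -/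
def WeakLE {ι : Type} {arity : ι → ℕ} (u v : Str ι arity) : Prop :=
  ∃ h : ℕ → ℕ, Function.Surjective h ∧ ∀ p : (Σ i, Fin (arity i) → ℕ),
    v p = true → u ⟨p.1, h ∘ p.2⟩ = true

/-- There is an epimorphism of `v` onto `u`. -/
def EpiLE {ι : Type} {arity : ι → ℕ} (u v : Str ι arity) : Prop :=
  ∃ h : ℕ → ℕ, Function.Surjective h ∧ ∀ p : (Σ i, Fin (arity i) → ℕ),
    v p = u ⟨p.1, h ∘ p.2⟩

/-- The set of structures `B` is invariant under isomorphism. -/
def Invariant {ι : Type} {arity : ι → ℕ} (B : Set (Str ι arity)) : Prop :=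
  ∀ σ : Equiv.Perm ℕ, ∀ u ∈ B, (fun p : (Σ i, Fin (arity i) → ℕ) => u ⟨p.1, ⇑σ ∘ p.2⟩) ∈ B

section

variable {ι : Type} {arity : ι → ℕ}

/-- add the complements of all the relations -/
def dbl (u : Str ι arity) : Str (ι × Bool) (fun i => arity i.1) := fun p =>
  if p.1.2 then u ⟨p.1.1, p.2⟩ else !(u ⟨p.1.1, p.2⟩)

/-- forget the complements -/
def fgt (v : Str (ι × Bool) (fun i => arity i.1)) : Str ι arity := fun p => v ⟨(p.1, true), p.2⟩

lemma fgt_dbl (u : Str ι arity) : fgt (dbl u) = u := by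
  funext p
  simp [fgt, dbl]

lemma weak_dbl (u v : Str ι arity) : WeakLE (dbl u) (dbl v) ↔ EpiLE u v := by
  constructor
  · rintro ⟨h, hs, hp⟩
    refine ⟨h, hs, fun p => ?_⟩
    have h1 := hp ⟨(p.1, true), p.2⟩
    have h2 := hp ⟨(p.1, false), p.2⟩
    simp only [dbl] at h1 h2
    cases h3 : v p
    · have h4 : v ⟨p.1, p.2⟩ = false := h3
      simp only [h4] at h2
      simpa using h2
    · have h4 : v ⟨p.1, p.2⟩ = true := h3
      simp only [h4] at h1
      simpa using h1
  · rintro ⟨h, hs, hp⟩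
    refine ⟨h, hs, ?_⟩
    rintro ⟨⟨i, b⟩, t⟩
    have h1 := hp ⟨i, t⟩
    simp only at h1
    cases b
    · simp only [dbl, h1]
      exact id
    · simp only [dbl, h1]
      exact id

lemma measurable_dbl : Measurable (dbl : Str ι arity → _) := by
  refine measurable_pi_lambda _ fun p => ?_
  by_cases h : p.1.2 = true
  · simp only [dbl, h]
    exact measurable_pi_apply _
  · simp only [dbl, h]
    exact (Measurable.of_discrete (f := Bool.not)).comp (measurable_pi_apply _)

lemma measurable_fgt : Measurable (fgt : Str (ι × Bool) (fun i => arity i.1) → Str ι arity) :=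
  measurable_pi_lambda _ fun p => measurable_pi_apply _

lemma image_dbl (B : Set (Str ι arity)) : dbl '' B = fgt ⁻¹' B ∩
    ⋂ p : (Σ i, Fin (arity i) → ℕ), {v | v ⟨(p.1, false), p.2⟩ = !(v ⟨(p.1, true), p.2⟩)} := by
  ext v
  simp only [mem_image, mem_inter_iff, mem_preimage, mem_iInter]
  constructor
  · rintro ⟨u, hu, rfl⟩
    rw [fgt_dbl]
    refine ⟨hu, fun p => ?_⟩
    change dbl u ⟨(p.1, false), p.2⟩ = !(dbl u ⟨(p.1, true), p.2⟩)
    simp [dbl]
  · rintro ⟨h1, h2⟩
    refine ⟨fgt v, h1, ?_⟩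
    funext ⟨⟨i, b⟩, t⟩
    have h3 : v ⟨(i, false), t⟩ = !(v ⟨(i, true), t⟩) := h2 ⟨i, t⟩
    cases b
    · simp [dbl, fgt, h3]
    · simp [dbl, fgt]

end

/-- Every analytic quasi-order on a standard Borel space is Borel equivalent to the relation of
weak epimorphism on an isomorphism-invariant Borel class of countable structures. -/
theorem result :
    ∀ (X : Type) [TopologicalSpace X] [PolishSpace X] [MeasurableSpace X] [BorelSpace X]
      (R : Set (X × X)), AnalyticSet R → (∀ x, (x, x) ∈ R) →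
      (∀ x y z, (x, y) ∈ R → (y, z) ∈ R → (x, z) ∈ R) →
      ∃ (ι : Type) (_ : Countable ι) (arity : ι → ℕ) (B : Set (Str ι arity)),
        MeasurableSet B ∧ Invariant B ∧
        (∃ f : X → Str ι arity, Measurable f ∧ (∀ x, f x ∈ B) ∧
          ∀ x y, (x, y) ∈ R ↔ WeakLE (f x) (f y)) ∧
        (∃ g : B → X, Measurable g ∧ ∀ u v : B, WeakLE u.1 v.1 ↔ (g u, g v) ∈ R) := by
  intro X _ _ _ _ R hR hrefl htrans
  rcases isEmpty_or_nonempty X with hX | hX
  · refine ⟨Empty, inferInstance, fun _ => 0, ∅, MeasurableSet.empty, ?_, ?_, ?_⟩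
    · exact fun _ x hx => absurd hx (Set.notMem_empty x)
    · exact ⟨fun x => (hX.false x).elim, measurable_of_empty _, fun x => (hX.false x).elim,
        fun x => (hX.false x).elim⟩
    · exact ⟨fun u => absurd u.2 (Set.notMem_empty _), measurable_of_empty _,
        fun u => absurd u.2 (Set.notMem_empty _)⟩
  · obtain ⟨B, h1, h2, ⟨f, hf1, hf2, hf3⟩, ⟨g, hg1, hg2⟩⟩ :=
      Pool.Agent.H579R3.Epi.main X R hR hrefl htrans
    have hB : MeasurableSet (dbl '' B) := by
      rw [image_dbl]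
      refine (measurable_fgt h1).inter (MeasurableSet.iInter fun p => ?_)
      apply measurableSet_eq_fun (measurable_pi_apply _)
      exact (Measurable.of_discrete (f := Bool.not)).comp (measurable_pi_apply _)
    refine ⟨Option Pool.Agent.H579R3.Epi.K × Bool, inferInstance, fun _ => 2, dbl '' B, hB,
      ?_, ⟨fun x => dbl (f x), measurable_dbl.comp hf1, fun x => ⟨f x, hf2 x, rfl⟩, ?_⟩, ?_⟩
    · rintro σ _ ⟨u, hu, rfl⟩
      exact ⟨_, h2 σ u hu, rfl⟩
    · intro x y
      rw [weak_dbl, hf3]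
      rfl
    · have hmem : ∀ v : (dbl '' B : Set (Str (Option Pool.Agent.H579R3.Epi.K × Bool)
          (fun _ => 2))), fgt v.1 ∈ B := by
        rintro ⟨_, ⟨u, hu, rfl⟩⟩
        rw [fgt_dbl]
        exact hu
      refine ⟨fun v => g ⟨fgt v.1, hmem v⟩, ?_, ?_⟩
      · exact hg1.comp ((measurable_fgt.comp measurable_subtype_coe).subtype_mk)
      · rintro ⟨_, ⟨u, hu, rfl⟩⟩ ⟨_, ⟨v, hv, rfl⟩⟩
        have h3 : (⟨fgt (dbl u), hmem ⟨dbl u, ⟨u, hu, rfl⟩⟩⟩ : B) = ⟨u, hu⟩ :=
          Subtype.ext (fgt_dbl u)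
        have h4 : (⟨fgt (dbl v), hmem ⟨dbl v, ⟨v, hv, rfl⟩⟩⟩ : B) = ⟨v, hv⟩ :=
          Subtype.ext (fgt_dbl v)
        have h5 := hg2 ⟨u, hu⟩ ⟨v, hv⟩
        rw [← h3, ← h4] at h5
        refine (weak_dbl u v).trans ?_
        exact h5

end Pool.Agent.Results.MP_44948e_lc.WeakEpimorphisms
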